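import Mathlib
import Pool.Agent.Helper398.Cyclic

set_option autoImplicit false

namespace Pool.Agent.Results.MP_d3cc86_co.LargeSets

/-- The set of all subset sums of A, the empty sum included. -/
def SigmaAll {n : ℕ} (A : Finset (ZMod n)) : Set (ZMod n) :=
  {s | ∃ B : Finset (ZMod n), B ⊆ A ∧ ∑ b ∈ B, b = s}

/-- The values of the number of subset sums over the asymmetric m-element subsets of the
integers modulo n. -/
def values (n m : ℕ) : Set ℕ :=
  {k | ∃ A : Finset (ZMod n), A.card = m ∧ (∀ a ∈ A, -a ∉ A) ∧ (SigmaAll A).ncard = k}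

/-- The minimum number of subset sums of an asymmetric m-element subset of the integers
modulo n. -/
noncomputable def rhoA (n m : ℕ) : ℕ := sInf (values n m)

/-- The divisor formula: the minimum, over the divisors d of n with m ≤ d + ⌊(d-1)/2⌋, of
d * (1 + max(0, m - ⌊(d-1)/2⌋)). -/
noncomputable def divisorFormula (n m : ℕ) : ℕ :=
  sInf {v | ∃ d : ℕ, d ∣ n ∧ m ≤ d + (d - 1) / 2 ∧ v = d * (1 + (m - (d - 1) / 2))}

theorem sigma_ncard {n : ℕ} (A : Finset (ZMod n)) : (SigmaAll A).ncard = A.subsetSum.card := by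
  rw [← Set.ncard_coe_finset]
  congr 1
  ext s
  rw [Finset.mem_coe, Finset.mem_subsetSum_iff]
  rfl

/-- For every ε > 0 and all sufficiently large n, the value of rhoA(n, m) is given by the divisor
formula for all m with (9/2 + ε) n ≤ m² (and 2m < n, i.e. m ≤ ⌊(n-1)/2⌋). -/
theorem result (ε : ℝ) (hε : 0 < ε) : ∃ N : ℕ, ∀ n : ℕ, N ≤ n → ∀ m : ℕ, 2 * m < n →
    (9 / 2 + ε) * n ≤ (m : ℝ) ^ 2 → rhoA n m = divisorFormula n m := by
  obtain ⟨N, hN⟩ := Pool.Agent.Helper398.asym_lower ε hε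
  refine ⟨N, fun n hn m hm2 hm => ?_⟩
  have hn0 : 0 < n := by omega
  have hne : {v | ∃ d : ℕ, d ∣ n ∧ m ≤ d + (d - 1) / 2 ∧
      v = d * (1 + (m - (d - 1) / 2))}.Nonempty :=
    ⟨_, n, dvd_rfl, by omega, rfl⟩
  obtain ⟨d, hd, hmd, hv⟩ := Nat.sInf_mem hne
  obtain ⟨A, hA1, hA2, hA3⟩ := Pool.Agent.Helper398.asym_upper n m d hn0 hm2 hd hmd
  have hval : (values n m).Nonempty := ⟨_, A, hA1, hA2, rfl⟩
  apply le_antisymm
  · have h1 : rhoA n m ≤ (SigmaAll A).ncard := Nat.sInf_le ⟨A, hA1, hA2, rfl⟩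
    rw [sigma_ncard] at h1
    unfold divisorFormula
    rw [hv]
    omega
  · obtain ⟨B, hB1, hB2, hB3⟩ := Nat.sInf_mem hval
    obtain ⟨e, he1, he2, he3⟩ := hN n hn m hm2 hm B hB1 hB2
    rw [sigma_ncard] at hB3
    have h1 : divisorFormula n m ≤ e * (1 + (m - (e - 1) / 2)) :=
      Nat.sInf_le ⟨e, he1, he2, rfl⟩
    unfold rhoA
    rw [← hB3]
    omega

end Pool.Agent.Results.MP_d3cc86_co.LargeSets
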